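import Pool.Agent.H31.DPD.Targets
import Pool.Agent.H79.DP.CM

/-!
Module CM of the project DPD (polynomial phases) on `MP_c59857_nt`.
-/

set_option autoImplicit false

open Finset Filter Topology

namespace Pool.Agent.H79.DPD

open Pool.Agent.H31.DP
open Pool.Agent.H31.DPD
open Pool.Agent.H24.T2 (Pset box cub)
open Pool.Agent.H79.DP (dl_smul norm_ee card_mul_le)

theorem MinorD.mono {K K' N d : ℕ} {γ : ℝ} (h : MinorD K N d γ) (hK : K' ≤ K) :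
    MinorD K' N d γ := by
  intro q hq hqK a
  have h1 : (K' : ℝ) ≤ K := by exact_mod_cast hK
  exact h1.trans (h q hq (hqK.trans hK) a)

theorem card_mulc_le (d Q M : ℕ) (hQ : 0 < Q) (h : Q ≤ M) :
    ((mulc d Q M).card : ℝ) ≤ 3 ^ d * (M / Q : ℝ) ^ d := by
  unfold mulc
  rw [Fintype.card_piFinset]
  push_cast
  rw [Finset.prod_const, Finset.card_univ, Fintype.card_fin, ← mul_pow]
  refine pow_le_pow_left₀ (Nat.cast_nonneg _) ?_ d
  refine (card_mul_le Q M hQ h).trans (le_of_eq (by ring))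

/-- The phase of the side vector `s`. -/
noncomputable def ph {d : ℕ} (γ : ℝ) (s : Fin d → ℤ) (p : ℤ) : ℂ :=
  ee ((d.factorial : ℝ) * (γ / (p : ℝ) ^ d) * ((∏ i, s i : ℤ) : ℝ))

/-- The sum of the twisted sums of correlations. -/
theorem sum_RCc {d l : ℕ} (h : Fin l → ℕ) (A : Finset ℕ) (Q M : ℕ) (γ c : ℝ)
    (hlow : ∀ p ∈ A, c * (M : ℝ) ^ (d + 1) ≤ (Q : ℝ) ^ d * (RCc d h p Q M γ).re) :
    c * A.card * (M : ℝ) ^ (d + 1) ≤
      (Q : ℝ) ^ d * ∑ s ∈ mulc d Q M, ‖∑ p ∈ A, ph γ s p * ((CAc h p M s : ℝ) : ℂ)‖ := by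
  have h1 : ∑ p ∈ A, c * (M : ℝ) ^ (d + 1) ≤ ∑ p ∈ A, (Q : ℝ) ^ d * (RCc d h p Q M γ).re :=
    Finset.sum_le_sum hlow
  rw [Finset.sum_const, nsmul_eq_mul, ← Finset.mul_sum, ← Complex.re_sum] at h1
  have h2 : ∑ p ∈ A, RCc d h p Q M γ =
      ∑ s ∈ mulc d Q M, ∑ p ∈ A, ph γ s p * ((CAc h p M s : ℝ) : ℂ) := by
    unfold RCc
    rw [Finset.sum_comm]
    refine Finset.sum_congr rfl fun s _ => Finset.sum_congr rfl fun p _ => ?_
    unfold ph
    push_cast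
    rfl
  rw [h2] at h1
  have h3 : (∑ s ∈ mulc d Q M, ∑ p ∈ A, ph γ s p * ((CAc h p M s : ℝ) : ℂ)).re ≤
      ∑ s ∈ mulc d Q M, ‖∑ p ∈ A, ph γ s p * ((CAc h p M s : ℝ) : ℂ)‖ :=
    (Complex.re_le_norm _).trans (norm_sum_le _ _)
  have h4 := mul_le_mul_of_nonneg_left h3 (by positivity : (0 : ℝ) ≤ (Q : ℝ) ^ d)
  linarith

/-- The sum of the cube counts over the side vectors. -/
theorem sum_Uc (hCU : StatementCU) (hDG : StatementDG) (hND : P_ND)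
    (d n X Q M Bm : ℕ) (A : Finset ℕ) (γ τ : ℝ) (hd : 0 < d) (hn : 0 < n) (hQ : 0 < Q)
    (hQM : Q ≤ M) (hτ : 0 < τ) (hA : ∀ p ∈ A, 0 < p ∧ p ≤ Bm)
    (hGS : ∀ (a : ℤ) (b : ℕ), a ≠ 0 → |a| ≤ ((2 ^ n * Bm ^ (d * 2 ^ n) : ℕ) : ℤ) → 0 < b →
      b ≤ 2 ^ n * Bm ^ (d * 2 ^ n) →
      ‖∑ s ∈ mulc d Q M, ee ((d.factorial : ℝ) * (γ * (a / b)) * ((∏ i, s i : ℤ) : ℝ))‖ ≤
        τ / (Q : ℝ) ^ d * (M : ℝ) ^ d) :
    ∑ s ∈ mulc d Q M, (Uc X n (A.map Nat.castEmbedding) (ph γ s)).re ≤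
      (M / Q : ℝ) ^ d * (A.card * (2 * X + 1) ^ (n - 1) * (3 ^ d * n + τ * (2 * X + 1))) := by
  classical
  set A' : Finset ℤ := A.map Nat.castEmbedding with hA'
  have hcard : A'.card = A.card := Finset.card_map _
  have hmem : ∀ a ∈ A', 0 < a ∧ a ≤ (Bm : ℤ) := by
    intro a ha
    rw [hA', Finset.mem_map] at ha
    obtain ⟨p, hp, rfl⟩ := ha
    have := hA p hp
    simp only [Nat.castEmbedding_apply]
    exact ⟨by exact_mod_cast this.1, by exact_mod_cast this.2⟩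
  set φ : ℤ → ℝ := fun x => (d.factorial : ℝ) * γ * (1 / (x : ℝ) ^ d) with hφ
  have hph : ∀ s : Fin d → ℤ, ph γ s = fun p => ee (((∏ i, s i : ℤ) : ℝ) * φ p) := by
    intro s
    funext p
    unfold ph
    congr 1
    rw [hφ]
    ring
  have h1 : ∀ s : Fin d → ℤ, Uc X n A' (ph γ s) =
      ∑ t ∈ box n X, ∑ p ∈ cub n A' t, ee (((∏ i, s i : ℤ) : ℝ) * dl n t φ p) := by
    intro s
    rw [hph]
    exact hCU X n A' φ _
  have h2 : ∑ s ∈ mulc d Q M, (Uc X n A' (ph γ s)).re =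
      (∑ t ∈ box n X, ∑ p ∈ cub n A' t,
        ∑ s ∈ mulc d Q M, ee (((∏ i, s i : ℤ) : ℝ) * dl n t φ p)).re := by
    rw [← Complex.re_sum]
    congr 1
    rw [Finset.sum_congr rfl fun s _ => h1 s, Finset.sum_comm]
    refine Finset.sum_congr rfl fun t _ => ?_
    exact Finset.sum_comm
  have hdl : ∀ (t : Fin n → ℤ) (p : ℤ), dl n t φ p =
      (d.factorial : ℝ) * γ * dl n t (fun x => 1 / (x : ℝ) ^ d) p := by
    intro t p
    rw [← dl_smul]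
  have hMQ : (0 : ℝ) ≤ (M / Q : ℝ) ^ d := by positivity
  have hQ' : (0 : ℝ) < Q := by exact_mod_cast hQ
  -- every term
  have hterm : ∀ t ∈ box n X, ∀ p ∈ cub n A' t,
      ‖∑ s ∈ mulc d Q M, ee (((∏ i, s i : ℤ) : ℝ) * dl n t φ p)‖ ≤
        (M / Q : ℝ) ^ d * ((if ∃ i, t i = 0 then 3 ^ d else 0) + τ) := by
    intro t _ p hp
    by_cases ht : ∃ i, t i = 0
    · rw [if_pos ht]
      calc ‖∑ s ∈ mulc d Q M, ee (((∏ i, s i : ℤ) : ℝ) * dl n t φ p)‖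
          ≤ ∑ s ∈ mulc d Q M, ‖ee (((∏ i, s i : ℤ) : ℝ) * dl n t φ p)‖ := norm_sum_le _ _
        _ = (mulc d Q M).card := by simp [norm_ee]
        _ ≤ 3 ^ d * (M / Q : ℝ) ^ d := card_mulc_le d Q M hQ hQM
        _ ≤ (M / Q : ℝ) ^ d * (3 ^ d + τ) := by
          have : 0 ≤ (M / Q : ℝ) ^ d * τ := mul_nonneg hMQ hτ.le
          rw [mul_add, mul_comm]; linarith
    · rw [if_neg ht]
      push Not at ht
      obtain ⟨a, b, ha, hb, hbB, haB, hab⟩ := hND d n Bm A' t p hd hmem ht hp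
      have h3 : ∑ s ∈ mulc d Q M, ee (((∏ i, s i : ℤ) : ℝ) * dl n t φ p) =
          ∑ s ∈ mulc d Q M,
            ee ((d.factorial : ℝ) * (γ * (a / b)) * ((∏ i, s i : ℤ) : ℝ)) := by
        refine Finset.sum_congr rfl fun s _ => ?_
        rw [hdl, hab]
        congr 1
        ring
      rw [h3]
      have h2n : 1 ≤ 2 ^ n := Nat.one_le_two_pow
      refine (hGS a b ha ?_ hb ?_).trans ?_
      · push_cast
        exact haB
      · exact hbB.trans (Nat.le_mul_of_pos_left _ h2n)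
      · rw [zero_add, div_pow]
        refine le_of_eq ?_
        ring
  rw [h2]
  calc (∑ t ∈ box n X, ∑ p ∈ cub n A' t,
        ∑ s ∈ mulc d Q M, ee (((∏ i, s i : ℤ) : ℝ) * dl n t φ p)).re
      ≤ ‖∑ t ∈ box n X, ∑ p ∈ cub n A' t,
        ∑ s ∈ mulc d Q M, ee (((∏ i, s i : ℤ) : ℝ) * dl n t φ p)‖ := Complex.re_le_norm _
    _ ≤ ∑ t ∈ box n X, ∑ p ∈ cub n A' t,
        ‖∑ s ∈ mulc d Q M, ee (((∏ i, s i : ℤ) : ℝ) * dl n t φ p)‖ :=
      (norm_sum_le _ _).trans (Finset.sum_le_sum fun t _ => norm_sum_le _ _)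
    _ ≤ ∑ t ∈ box n X, ∑ p ∈ cub n A' t,
        (M / Q : ℝ) ^ d * ((if ∃ i, t i = 0 then 3 ^ d else 0) + τ) :=
      Finset.sum_le_sum fun t ht => Finset.sum_le_sum fun p hp => hterm t ht p hp
    _ = (M / Q : ℝ) ^ d *
        (3 ^ d * ∑ t ∈ (box n X).filter (fun t => ∃ i, t i = 0), ((cub n A' t).card : ℝ) +
        τ * ∑ t ∈ box n X, ((cub n A' t).card : ℝ)) := by
      rw [Finset.sum_filter, Finset.mul_sum, Finset.mul_sum, ← Finset.sum_add_distrib,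
        Finset.mul_sum]
      refine Finset.sum_congr rfl fun t _ => ?_
      rw [Finset.sum_const, nsmul_eq_mul]
      split_ifs <;> ring
    _ ≤ (M / Q : ℝ) ^ d * (A.card * (2 * X + 1) ^ (n - 1) * (3 ^ d * n + τ * (2 * X + 1))) := by
      refine mul_le_mul_of_nonneg_left ?_ hMQ
      obtain ⟨hD1, hD2⟩ := hDG X n A' hn
      rw [hcard] at hD1 hD2
      have h6 := mul_le_mul_of_nonneg_left hD1 hτ.le
      have h7 : ((2 * X + 1 : ℝ)) ^ n = (2 * X + 1) ^ (n - 1) * (2 * X + 1) := by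
        rw [← pow_succ, Nat.sub_add_cancel hn]
      rw [h7] at h6
      have h8 := mul_le_mul_of_nonneg_left hD2 (show (0 : ℝ) ≤ 3 ^ d by positivity)
      calc _ ≤ 3 ^ d * ((n : ℝ) * A.card * (2 * X + 1) ^ (n - 1)) +
            τ * (A.card * ((2 * X + 1) ^ (n - 1) * (2 * X + 1))) := add_le_add h8 h6
        _ = _ := by ring

theorem pf_CM (hCT : P_CT) (hCU : StatementCU) (hDG : StatementDG) (hND : P_ND)
    (hGS : P_GS) : P_CM := by
  intro d l h c τ A X Q hd hc hτ hQ hA hX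
  set n := l + 1 with hn
  set D := 2 ^ n with hD
  set Bm := A.sup id with hBm
  set B := ∑ i, Bm * h i with hB
  have hQ' : (0 : ℝ) < Q := by exact_mod_cast hQ
  obtain ⟨K₁, hK₁⟩ := hGS d Q (2 ^ n * Bm ^ (d * 2 ^ n)) (τ / (Q : ℝ) ^ d) hd hQ (by positivity)
  refine ⟨Q + B + 1 + K₁, fun M hKM γ hmin hlow => ?_⟩
  have hQM : Q ≤ M := by omega
  have hBM : B ≤ M := by omega
  have hM0 : 0 < M := by omega
  have hABm : ∀ p ∈ A, 0 < p ∧ p ≤ Bm := fun p hp => ⟨hA p hp, Finset.le_sup (f := id) hp⟩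
  have hS := sum_Uc hCU hDG hND d n X Q M Bm A γ τ hd (by omega) hQ hQM hτ hABm
    (hK₁ M (by omega) γ (MinorD.mono hmin (by omega)))
  have hR := sum_RCc h A Q M γ c hlow
  set E : (Fin d → ℤ) → ℝ := fun s => ‖∑ p ∈ A, ph γ s p * ((CAc h p M s : ℝ) : ℂ)‖ with hE
  have hE0 : ∀ s, 0 ≤ E s := fun s => norm_nonneg _
  have hM' : (0 : ℝ) < M := by exact_mod_cast hM0
  have hD1 : 1 ≤ D := Nat.one_le_two_pow
  -- the von Neumann inequality for each s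
  have hCTs : ∀ s ∈ mulc d Q M, E s ^ D ≤ (2 * M : ℝ) ^ D * (2 * X + 1) ^ (D - (l + 2)) *
      (Uc X n (A.map Nat.castEmbedding) (ph γ s)).re := by
    intro s _
    have h1 := hCT d l h A B X M s (ph γ s) (fun p hp i => by
      calc p * h i ≤ Bm * h i := Nat.mul_le_mul_right _ (hABm p hp).2
        _ ≤ B := Finset.single_le_sum (f := fun i => Bm * h i) (fun _ _ => Nat.zero_le _)
          (Finset.mem_univ i)) hX
    have h2 : 0 ≤ (Uc X n (A.map Nat.castEmbedding) (ph γ s)).re ∨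
        (Uc X n (A.map Nat.castEmbedding) (ph γ s)).re < 0 := le_or_gt _ _
    have hMB : (M : ℝ) + B ≤ 2 * M := by
      have : (B : ℝ) ≤ M := by exact_mod_cast hBM
      linarith
    rcases h2 with h2 | h2
    · refine h1.trans ?_
      refine mul_le_mul_of_nonneg_right ?_ h2
      refine mul_le_mul_of_nonneg_right ?_ (by positivity)
      exact pow_le_pow_left₀ (by positivity) hMB _
    · exfalso
      have h3 : ((M : ℝ) + B) ^ (2 ^ (l + 1)) * (2 * X + 1) ^ (2 ^ (l + 1) - (l + 2)) *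
          (Uc X (l + 1) (A.map Nat.castEmbedding) (ph γ s)).re < 0 :=
        mul_neg_of_pos_of_neg (by positivity) h2
      have h4 : 0 ≤ E s ^ D := pow_nonneg (hE0 s) _
      exact absurd (h4.trans h1) (not_le.2 h3)
  set R : ℝ := (M / Q : ℝ) ^ d with hRdef
  have hR0 : 0 ≤ R := by positivity
  have hsumD : ∑ s ∈ mulc d Q M, E s ^ D ≤ (2 * M : ℝ) ^ D * (2 * X + 1) ^ (D - (l + 2)) *
      (R * (A.card * (2 * X + 1) ^ (n - 1) * (3 ^ d * n + τ * (2 * X + 1)))) := by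
    refine (Finset.sum_le_sum hCTs).trans ?_
    rw [← Finset.mul_sum]
    exact mul_le_mul_of_nonneg_left hS (by positivity)
  have hD' : D - 1 + 1 = D := Nat.sub_add_cancel hD1
  have hcard : ((mulc d Q M).card : ℝ) ≤ 3 ^ d * R := card_mulc_le d Q M hQ hQM
  have hsum0 : 0 ≤ ∑ s ∈ mulc d Q M, E s ^ D :=
    Finset.sum_nonneg fun s _ => pow_nonneg (hE0 s) _
  have hmean : (∑ s ∈ mulc d Q M, E s) ^ D ≤
      (3 ^ d * R) ^ (D - 1) * ∑ s ∈ mulc d Q M, E s ^ D := by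
    have h1 := pow_sum_le_card_mul_sum_pow (s := mulc d Q M) (f := E) (fun s _ => hE0 s) (D - 1)
    rw [hD'] at h1
    refine h1.trans (mul_le_mul_of_nonneg_right ?_ hsum0)
    exact pow_le_pow_left₀ (Nat.cast_nonneg _) hcard _
  have hlD : l + 2 ≤ D := by
    have h1 : n + 1 ≤ 2 ^ n := Nat.lt_two_pow_self
    omega
  -- the power of the lower bound
  have hpow : (c * A.card * (M : ℝ) ^ (d + 1)) ^ D ≤
      ((Q : ℝ) ^ d * ∑ s ∈ mulc d Q M, E s) ^ D :=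
    pow_le_pow_left₀ (by positivity) hR _
  set T : ℝ := (Q : ℝ) ^ d with hT
  rw [mul_pow T] at hpow
  set Y : ℝ := A.card * (3 ^ d * n + τ * (2 * X + 1)) with hY
  set W : ℝ := 2 * X + 1 with hW
  have hW1 : 0 < W := by positivity
  have hT0 : 0 < T := by positivity
  have hTR : T * R = (M : ℝ) ^ d := by
    rw [hT, hRdef, div_pow]
    field_simp
  have hTD : T ^ D = T ^ (D - 1) * T := by rw [← pow_succ, hD']
  have h31 : (1 : ℝ) ≤ 3 ^ d := one_le_pow₀ (by norm_num)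
  have h3D : ((3 : ℝ) ^ d) ^ (D - 1) ≤ (3 ^ d) ^ D := pow_le_pow_right₀ h31 (Nat.sub_le _ _)
  have hMD : ((M : ℝ) ^ d) ^ D = (M ^ d) ^ (D - 1) * M ^ d := by rw [← pow_succ, hD']
  have hWe : W ^ (D - (l + 2)) * W ^ (n - 1) = W ^ (D - 2) := by
    rw [← pow_add]; congr 1; omega
  have hbig : (c * A.card * (M : ℝ) ^ (d + 1)) ^ D ≤
      (3 ^ d) ^ (D - 1) * 2 ^ D * (((M : ℝ) ^ d) ^ D * (M : ℝ) ^ D) * W ^ (D - 2) * Y := by
    have h1 : T ^ D * (∑ s ∈ mulc d Q M, E s) ^ D ≤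
        T ^ D * ((3 ^ d * R) ^ (D - 1) * ((2 * M : ℝ) ^ D * W ^ (D - (l + 2)) *
      (R * (A.card * W ^ (n - 1) * (3 ^ d * n + τ * W))))) :=
      mul_le_mul_of_nonneg_left (hmean.trans (mul_le_mul_of_nonneg_left hsumD (by positivity)))
        (by positivity)
    refine hpow.trans (h1.trans (le_of_eq ?_))
    have h2 : T ^ (D - 1) * (3 ^ d * R) ^ (D - 1) =
        (3 ^ d) ^ (D - 1) * ((M : ℝ) ^ d) ^ (D - 1) := by
      rw [← mul_pow, ← mul_pow, ← hTR]; congr 1; ring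
    calc T ^ D * ((3 ^ d * R) ^ (D - 1) * ((2 * M : ℝ) ^ D * W ^ (D - (l + 2)) *
          (R * (A.card * W ^ (n - 1) * (3 ^ d * n + τ * W)))))
        = (T ^ (D - 1) * (3 ^ d * R) ^ (D - 1)) * (T * R) *
          ((2 : ℝ) ^ D * M ^ D) * (W ^ (D - (l + 2)) * W ^ (n - 1)) * Y := by
          rw [hTD, mul_pow 2 (M : ℝ)]; ring
      _ = ((3 ^ d) ^ (D - 1) * ((M : ℝ) ^ d) ^ (D - 1)) * (M : ℝ) ^ d *
          ((2 : ℝ) ^ D * M ^ D) * W ^ (D - 2) * Y := by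
          rw [h2, hWe, hTR]
      _ = _ := by rw [hMD]; ring
  have hM2 : ((M : ℝ) ^ (d + 1)) ^ D = ((M : ℝ) ^ d) ^ D * (M : ℝ) ^ D := by
    rw [← mul_pow]; congr 1
  have hMM : 0 < ((M : ℝ) ^ d) ^ D * (M : ℝ) ^ D := by positivity
  rw [mul_pow, hM2] at hbig
  have hY0 : 0 ≤ Y := by positivity
  have hfin : (c * A.card) ^ D ≤ (3 ^ d) ^ (D - 1) * 2 ^ D * W ^ (D - 2) * Y := by
    refine le_of_mul_le_mul_right ?_ hMM
    calc (c * A.card) ^ D * (((M : ℝ) ^ d) ^ D * (M : ℝ) ^ D) ≤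
        (3 ^ d) ^ (D - 1) * 2 ^ D * (((M : ℝ) ^ d) ^ D * (M : ℝ) ^ D) * W ^ (D - 2) * Y := hbig
      _ = _ := by ring
  refine hfin.trans ?_
  have h6 : (2 * (3 : ℝ) ^ d) ^ D = (3 ^ d) ^ D * 2 ^ D := by rw [← mul_pow]; congr 1; ring
  calc (3 ^ d) ^ (D - 1) * 2 ^ D * W ^ (D - 2) * Y ≤ (3 ^ d) ^ D * 2 ^ D * W ^ (D - 2) * Y := by
        gcongr
    _ = (2 * 3 ^ d) ^ D * A.card * W ^ (D - 2) * (3 ^ d * ((l : ℝ) + 1) + τ * W) := by
      rw [h6, hY, hn]; push_cast; ring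

end Pool.Agent.H79.DPD
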